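import Pool.Agent.Lib.FOLFP.Def
import Pool.Agent.Lib.FOLFPd_h74.Dep

/-! # First-order definability with a bound on the quantifier depth

`DDef q` is `Def` with the additional requirement that the formula has depth at most `q + 1`. Finite
conjunctions and disjunctions do not increase the depth. -/

namespace Pool.Agent.Lib.FOLFPd

open Pool.Agent.Lib.PolyTM Pool.Agent.Lib.FOLFP Function

set_option linter.unusedSectionVars false

variable {V V' W W' : Type} [DecidableEq V] [DecidableEq V'] [DecidableEq W] [DecidableEq W']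

omit [DecidableEq V] [DecidableEq V'] [DecidableEq W] [DecidableEq W'] in
theorem dep_ren (f : V → V') (g : W → W') (φ : Fml V W) : (ren f g φ).dep = φ.dep := by
  induction φ with
  | arr w xs => rfl
  | le x y => rfl
  | not φ ih => exact ih
  | and φ ψ ih1 ih2 => simp [ren, Fml.dep, ih1, ih2]
  | ex x φ ih => simp [ren, Fml.dep, ih]

omit [DecidableEq V] [DecidableEq W] in
theorem dep_exs (xs : List V) (φ : Fml V W) : (exs xs φ).dep = φ.dep + xs.length := by
  induction xs with
  | nil => rfl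
  | cons x xs ih => simp only [exs, Fml.dep, ih, List.length_cons]; omega

/-- **Definability with bounded depth** of a relation of index tuples (depending on the index
range `N` and on the array contents), for array contents satisfying the condition `C`. -/
def DDef (q : ℕ) (ar : W → ℕ) (C : ℕ → Arr W → Prop) (κ : Type) [DecidableEq κ]
    (R : ℕ → Arr W → (κ → ℕ) → Prop) : Prop :=
  ∃ (B : Type) (_ : Fintype B) (_ : DecidableEq B) (φ : Fml (κ ⊕ B) W),
    φ.dep ≤ q + 1 ∧ WFs ar (Set.range Sum.inl) φ ∧ ∀ N a e, C N a → (∀ x, e (Sum.inl x) < N) →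
      (φ.eval N a e = true ↔ R N a (e ∘ Sum.inl))

namespace DDef

variable {p q : ℕ} {ar : W → ℕ} {C : ℕ → Arr W → Prop} {κ κ' lam : Type} [DecidableEq κ]
  [DecidableEq κ'] [DecidableEq lam]
  {R S : ℕ → Arr W → (κ → ℕ) → Prop}

theorem toDef (h : DDef q ar C κ R) : Def ar C κ R := by
  obtain ⟨B, i1, i2, φ, _, h1, h2⟩ := h
  exact ⟨B, i1, i2, φ, h1, h2⟩

/-- A larger bound. -/
theorem up (h : DDef p ar C κ R) (hpq : p ≤ q) : DDef q ar C κ R := by
  obtain ⟨B, i1, i2, φ, h0, h1, h2⟩ := h
  exact ⟨B, i1, i2, φ, h0.trans (by omega), h1, h2⟩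

theorem congr (h : DDef q ar C κ R)
    (hRS : ∀ N a e, C N a → (∀ x, e x < N) → (R N a e ↔ S N a e)) : DDef q ar C κ S := by
  obtain ⟨B, i1, i2, φ, h0, h1, h2⟩ := h
  exact ⟨B, i1, i2, φ, h0, h1, fun N a e hC he => (h2 N a e hC he).trans (hRS N a _ hC he)⟩

theorem arr (w : W) (f : Fin (ar w) → κ) :
    DDef q ar C κ (fun _ a e => a w (List.ofFn fun i => e (f i)) = true) := by
  refine ⟨Empty, inferInstance, inferInstance, .arr w (List.ofFn fun i => Sum.inl (f i)),
    Nat.zero_le _, ⟨by simp, ?_⟩, ?_⟩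
  · intro x hx
    obtain ⟨i, rfl⟩ := (List.mem_ofFn' _ _).1 hx
    exact ⟨f i, rfl⟩
  · intro N a e _ _
    rw [Fml.eval_arr, List.map_ofFn]
    rfl

theorem mono {C' : ℕ → Arr W → Prop} (h : DDef q ar C κ R) (hC : ∀ N a, C' N a → C N a) :
    DDef q ar C' κ R := by
  obtain ⟨B, i1, i2, φ, h0, h1, h2⟩ := h
  exact ⟨B, i1, i2, φ, h0, h1, fun N a e hC' he => h2 N a e (hC N a hC') he⟩

theorem not (h : DDef q ar C κ R) : DDef q ar C κ (fun N a e => ¬ R N a e) := by
  obtain ⟨B, i1, i2, φ, h0, h1, h2⟩ := h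
  exact ⟨B, i1, i2, .not φ, h0, h1, fun N a e hC he => by rw [Fml.eval_not, h2 N a e hC he]⟩

theorem and (h : DDef q ar C κ R) (h' : DDef q ar C κ S) :
    DDef q ar C κ (fun N a e => R N a e ∧ S N a e) := by
  obtain ⟨B, i1, i2, φ, h0, h1, h2⟩ := h
  obtain ⟨B', i1', i2', φ', h0', h1', h2'⟩ := h'
  have f1 : Injective (Sum.map id Sum.inl : κ ⊕ B → κ ⊕ (B ⊕ B')) :=
    Sum.map_injective.2 ⟨injective_id, Sum.inl_injective⟩
  have f2 : Injective (Sum.map id Sum.inr : κ ⊕ B' → κ ⊕ (B ⊕ B')) :=
    Sum.map_injective.2 ⟨injective_id, Sum.inr_injective⟩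
  refine ⟨B ⊕ B', inferInstance, inferInstance, .and (ren (Sum.map id Sum.inl) id φ)
    (ren (Sum.map id Sum.inr) id φ'), ?_, ⟨?_, ?_⟩, ?_⟩
  · simp only [Fml.dep, dep_ren]
    omega
  · have := h1.ren f1 (g := id) (ar' := ar) (fun _ => rfl)
    rwa [← Set.range_comp] at this
  · have := h1'.ren f2 (g := id) (ar' := ar) (fun _ => rfl)
    rwa [← Set.range_comp] at this
  · intro N a e hC he
    rw [Fml.eval_and, eval_ren_id f1, eval_ren_id f2]
    rw [h2 N _ _ hC he, h2' N _ _ hC he]
    rfl

/-- Injective renaming. -/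
theorem rename (f : κ → κ') (hf : Injective f) (h : DDef q ar C κ R) :
    DDef q ar C κ' (fun N a e => R N a (e ∘ f)) := by
  obtain ⟨B, i1, i2, φ, h0, h1, h2⟩ := h
  have f1 : Injective (Sum.map f id : κ ⊕ B → κ' ⊕ B) := Sum.map_injective.2 ⟨hf, injective_id⟩
  refine ⟨B, i1, i2, ren (Sum.map f id) id φ, by rwa [dep_ren], ?_, ?_⟩
  · refine (h1.ren f1 (g := id) (ar' := ar) (fun _ => rfl)).mono ?_ ?_
    · rintro _ ⟨_, ⟨x, rfl⟩, rfl⟩
      exact ⟨f x, rfl⟩
    · intro x hx hc
      rw [bv_ren] at hx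
      obtain ⟨y, hy, rfl⟩ := hx
      obtain ⟨z, hz⟩ := hc
      cases y with
      | inl y => exact h1.not_mem_bv _ hy ⟨y, rfl⟩
      | inr y => simp at hz
  · intro N a e hC he
    rw [eval_ren_id f1, h2 N _ _ hC (fun x => he (f x))]
    rfl

/-- Bounded quantification over finitely many new variables. -/
theorem ex [Fintype lam] {R : ℕ → Arr W → (κ ⊕ lam → ℕ) → Prop}
    (h : DDef q ar C (κ ⊕ lam) R) :
    DDef (q + Fintype.card lam) ar C κ
      (fun N a e => ∃ t : lam → ℕ, (∀ l, t l < N) ∧ R N a (Sum.elim e t)) := by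
  obtain ⟨B, i1, i2, φ, h0, h1, h2⟩ := h
  set f : (κ ⊕ lam) ⊕ B → κ ⊕ (lam ⊕ B) := ⇑(Equiv.sumAssoc κ lam B) with hf
  have hfi : Injective f := (Equiv.sumAssoc κ lam B).injective
  set xs : List (κ ⊕ (lam ⊕ B)) := (Finset.univ : Finset lam).toList.map
    (fun l => Sum.inr (Sum.inl l)) with hxs
  have hmem : ∀ x, x ∈ xs ↔ ∃ l, x = Sum.inr (Sum.inl l) := by
    intro x
    simp [hxs, eq_comm]
  have hnd : xs.Nodup := (Finset.nodup_toList _).map (fun l l' hl => by simpa using hl)
  refine ⟨lam ⊕ B, inferInstance, inferInstance, exs xs (ren f id φ), ?_, ?_, ?_⟩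
  · rw [dep_exs, dep_ren]
    have : xs.length = Fintype.card lam := by simp [hxs]
    omega
  · apply WFs.exs xs hnd
    · intro x hx hc
      obtain ⟨l, rfl⟩ := (hmem x).1 hx
      obtain ⟨y, hy⟩ := hc
      simp at hy
    · have := h1.ren hfi (g := id) (ar' := ar) (fun _ => rfl)
      convert this using 1
      ext x
      simp only [Set.mem_union, Set.mem_range, Set.mem_ofPred_eq, hmem, Set.mem_image,
        exists_exists_eq_and]
      constructor
      · rintro (⟨y, rfl⟩ | ⟨l, rfl⟩)
        · exact ⟨Sum.inl y, rfl⟩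
        · exact ⟨Sum.inr l, rfl⟩
      · rintro ⟨y | l, rfl⟩
        · exact Or.inl ⟨y, rfl⟩
        · exact Or.inr ⟨l, rfl⟩
  · intro N a e hC he
    rw [eval_exs xs hnd]
    constructor
    · rintro ⟨t, g1, g2, g3⟩
      have hlt : ∀ l, t (Sum.inr (Sum.inl l)) < N := fun l => g1 _ ((hmem _).2 ⟨l, rfl⟩)
      have hinl : ∀ x, t (Sum.inl x) = e (Sum.inl x) := fun x => g2 _ (by simp [hmem])
      refine ⟨fun l => t (Sum.inr (Sum.inl l)), hlt, ?_⟩
      rw [eval_ren_id hfi, h2 _ _ _ hC] at g3
      · have e1 : (t ∘ f) ∘ Sum.inl = Sum.elim (e ∘ Sum.inl)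
            (fun l => t (Sum.inr (Sum.inl l))) := by
          funext x
          cases x with
          | inl x => simp [hf, hinl]
          | inr l => simp [hf]
        rw [e1] at g3
        exact g3
      · intro x
        cases x with
        | inl x => simpa [hf, hinl] using he x
        | inr l => simpa [hf] using hlt l
    · rintro ⟨t, g1, g2⟩
      refine ⟨fun x => match x with
        | .inl x => e (.inl x)
        | .inr (.inl l) => t l
        | .inr (.inr b) => e (.inr (.inr b)), ?_, ?_, ?_⟩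
      · intro x hx
        obtain ⟨l, rfl⟩ := (hmem x).1 hx
        exact g1 l
      · intro x hx
        match x with
        | .inl x => rfl
        | .inr (.inl l) => exact absurd ((hmem _).2 ⟨l, rfl⟩) hx
        | .inr (.inr b) => rfl
      · rw [eval_ren_id hfi, h2 _ _ _ hC]
        · refine (iff_of_eq ?_).mp g2
          congr 1
          funext x
          cases x <;> simp [hf]
        · intro x
          cases x with
          | inl x => simpa [hf] using he x
          | inr l => simpa [hf] using g1 l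

theorem true' [Inhabited W] : DDef q ar C κ (fun _ _ _ => True) := by
  refine ⟨Unit, inferInstance, inferInstance,
    .not (.ex (Sum.inr ()) (.and (.arr default (List.replicate (ar default) (Sum.inr ())))
      (.not (.arr default (List.replicate (ar default) (Sum.inr ())))))), ?_, ?_, ?_⟩
  · simp [Fml.dep]
  · refine ⟨by simp, ⟨by simp, ?_⟩, ⟨by simp, ?_⟩⟩ <;>
    · intro x hx
      exact Or.inl (List.eq_of_mem_replicate hx)
  · intro N a e _ _
    simp only [Fml.eval_not, Fml.eval_ex, Fml.eval_and]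
    simp

theorem const [Inhabited W] (p : Prop) : DDef q ar C κ (fun _ _ _ => p) := by
  by_cases hp : p
  · exact true'.congr (by simp [hp])
  · exact true'.not.congr (by simp [hp])

theorem le [Inhabited W] (i j : κ) : DDef q ar C κ (fun _ _ e => e i ≤ e j) := by
  by_cases hij : i = j
  · subst hij
    exact true'.congr (by simp)
  · refine ⟨Empty, inferInstance, inferInstance, .le (Sum.inl i) (Sum.inl j), Nat.zero_le _,
      ⟨⟨i, rfl⟩, ⟨j, rfl⟩, by simpa using hij⟩, ?_⟩
    intro N a e _ _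
    simp [Fml.eval]

theorem or (h : DDef q ar C κ R) (h' : DDef q ar C κ S) :
    DDef q ar C κ (fun N a e => R N a e ∨ S N a e) :=
  (h.not.and h'.not).not.congr (by intro N a e _ _; tauto)

theorem imp (h : DDef q ar C κ R) (h' : DDef q ar C κ S) :
    DDef q ar C κ (fun N a e => R N a e → S N a e) :=
  (h.not.or h').congr (by intro N a e _ _; tauto)

theorem iff (h : DDef q ar C κ R) (h' : DDef q ar C κ S) :
    DDef q ar C κ (fun N a e => (R N a e ↔ S N a e)) :=
  ((h.imp h').and (h'.imp h)).congr (by intro N a e _ _; tauto)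

theorem all' [Fintype lam] {R : ℕ → Arr W → (κ ⊕ lam → ℕ) → Prop}
    (h : DDef q ar C (κ ⊕ lam) R) :
    DDef (q + Fintype.card lam) ar C κ
      (fun N a e => ∀ t : lam → ℕ, (∀ l, t l < N) → R N a (Sum.elim e t)) :=
  h.not.ex.not.congr (by intro N a e _ _; push Not; rfl)

theorem eq [Inhabited W] (i j : κ) : DDef q ar C κ (fun _ _ e => e i = e j) :=
  ((le i j).and (le j i)).congr (by intro N a e _ _; omega)

theorem lt [Inhabited W] (i j : κ) : DDef q ar C κ (fun _ _ e => e i < e j) :=
  (le j i).not.congr (by intro N a e _ _; omega)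

/-- Finite conjunctions. -/
theorem forall' [Inhabited W] {J : Type*} [Finite J] {R : J → ℕ → Arr W → (κ → ℕ) → Prop}
    (h : ∀ j, DDef q ar C κ (R j)) : DDef q ar C κ (fun N a e => ∀ j, R j N a e) := by
  have := Fintype.ofFinite J
  have key : ∀ s : Finset J, DDef q ar C κ (fun N a e => ∀ j ∈ s, R j N a e) := by
    classical
    intro s
    induction s using Finset.induction_on with
    | empty => exact true'.congr (by simp)
    | insert j s _ ih => exact ((h j).and ih).congr (by intro N a e _ _; simp)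
  exact (key Finset.univ).congr (by simp)

/-- Finite disjunctions. -/
theorem exists' [Inhabited W] {J : Type*} [Finite J] {R : J → ℕ → Arr W → (κ → ℕ) → Prop}
    (h : ∀ j, DDef q ar C κ (R j)) : DDef q ar C κ (fun N a e => ∃ j, R j N a e) :=
  (forall' fun j => (h j).not).not.congr (by intro N a e _ _; push Not; rfl)

/-- Substitution of variables. -/
theorem subst [Inhabited W] [Fintype κ] (f : κ → κ') (h : DDef q ar C κ R) :
    DDef (q + Fintype.card κ) ar C κ' (fun N a e => R N a (e ∘ f)) := by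
  have h1 : DDef q ar C (κ' ⊕ κ) (fun N a e => R N a (e ∘ Sum.inr)) :=
    h.rename Sum.inr Sum.inr_injective
  have h2 : DDef q ar C (κ' ⊕ κ) (fun _ _ e => ∀ i : κ, e (Sum.inr i) = e (Sum.inl (f i))) :=
    forall' fun i => eq _ _
  refine (h2.and h1).ex.congr ?_
  intro N a e _ he
  constructor
  · rintro ⟨t, g1, g2, g3⟩
    have : t = e ∘ f := funext fun i => g2 i
    subst this
    exact g3
  · intro g
    exact ⟨e ∘ f, fun i => he _, fun i => rfl, g⟩

end DDef

end Pool.Agent.Lib.FOLFPd
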