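import Pool.Agent.Lib.FOLFP.Big
import Pool.Agent.Lib.FOLFPd_h74.Def

/-! # Definability with bounded depth over the larger range `0, …, N ^ D - 1` -/

namespace Pool.Agent.Lib.FOLFPd

open Pool.Agent.Lib.PolyTM Pool.Agent.Lib.FOLFP Function

set_option linter.unusedSectionVars false

variable {W1 : Type} [DecidableEq W1] {ι : W1 → Type} [∀ w, Fintype (ι w)]
  [∀ w, DecidableEq (ι w)] {D : ℕ}

/-- Definability over the larger range. -/
def DBDef (q : ℕ) (ι : W1 → Type) [∀ w, Fintype (ι w)] (D : ℕ)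
    (C : ℕ → Arr (Option W1) → Prop)
    (κ : Type) [DecidableEq κ] (R : ℕ → Arr (Option W1) → (κ → ℕ) → Prop) : Prop :=
  DDef q (bar ι D) C (κ × Fin D) (fun N a d => R N a (fun x => bval N (fun i => d (x, i))))

namespace DBDef

variable {p q : ℕ} {C : ℕ → Arr (Option W1) → Prop} {κ κ' lam : Type} [DecidableEq κ] [DecidableEq κ'] [DecidableEq lam]
  {R S : ℕ → Arr (Option W1) → (κ → ℕ) → Prop}

theorem toBDef (h : DBDef q ι D C κ R) : BDef ι D C κ R := DDef.toDef h

/-- A larger bound. -/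
theorem up (h : DBDef p ι D C κ R) (hpq : p ≤ q) : DBDef q ι D C κ R := DDef.up h hpq

theorem congr (h : DBDef q ι D C κ R)
    (hRS : ∀ N a e, C N a → (∀ x, e x < N ^ D) → (R N a e ↔ S N a e)) :
    DBDef q ι D C κ S :=
  DDef.congr h fun N a _ hC hd => hRS N a _ hC fun x => bval_lt fun i => hd (x, i)

theorem mono {C' : ℕ → Arr (Option W1) → Prop} (h : DBDef q ι D C κ R)
    (hC : ∀ N a, C' N a → C N a) : DBDef q ι D C' κ R := DDef.mono h hC

theorem not (h : DBDef q ι D C κ R) : DBDef q ι D C κ (fun N a e => ¬ R N a e) := DDef.not h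

theorem and (h : DBDef q ι D C κ R) (h' : DBDef q ι D C κ S) :
    DBDef q ι D C κ (fun N a e => R N a e ∧ S N a e) := DDef.and h h'

theorem or (h : DBDef q ι D C κ R) (h' : DBDef q ι D C κ S) :
    DBDef q ι D C κ (fun N a e => R N a e ∨ S N a e) := DDef.or h h'

theorem imp (h : DBDef q ι D C κ R) (h' : DBDef q ι D C κ S) :
    DBDef q ι D C κ (fun N a e => R N a e → S N a e) := DDef.imp h h'

theorem iff (h : DBDef q ι D C κ R) (h' : DBDef q ι D C κ S) :
    DBDef q ι D C κ (fun N a e => (R N a e ↔ S N a e)) := DDef.iff h h'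

theorem const (p : Prop) : DBDef q ι D C κ (fun _ _ _ => p) := DDef.const p

theorem forall' {J : Type*} [Finite J] {R : J → ℕ → Arr (Option W1) → (κ → ℕ) → Prop}
    (h : ∀ j, DBDef q ι D C κ (R j)) : DBDef q ι D C κ (fun N a e => ∀ j, R j N a e) :=
  DDef.forall' h

theorem exists' {J : Type*} [Finite J] {R : J → ℕ → Arr (Option W1) → (κ → ℕ) → Prop}
    (h : ∀ j, DBDef q ι D C κ (R j)) : DBDef q ι D C κ (fun N a e => ∃ j, R j N a e) :=
  DDef.exists' h

theorem subst [Fintype κ] (f : κ → κ') (h : DBDef q ι D C κ R) :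
    DBDef (q + Fintype.card κ * D) ι D C κ' (fun N a e => R N a (e ∘ f)) :=
  (DDef.subst (κ' := κ' × Fin D) (Prod.map f id) h).up (by simp)

theorem ex [Fintype lam] {R : ℕ → Arr (Option W1) → (κ ⊕ lam → ℕ) → Prop}
    (h : DBDef q ι D C (κ ⊕ lam) R) :
    DBDef (q + Fintype.card lam * D) ι D C κ
      (fun N a e => ∃ t : lam → ℕ, (∀ l, t l < N ^ D) ∧ R N a (Sum.elim e t)) := by
  have h1 := DDef.rename (κ' := (κ × Fin D) ⊕ (lam × Fin D)) (Equiv.sumProdDistrib κ lam (Fin D))
    (Equiv.sumProdDistrib κ lam (Fin D)).injective h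
  refine ((DDef.ex h1).congr ?_).up (by simp)
  intro N a e _ he
  constructor
  · rintro ⟨t, g1, g2⟩
    refine ⟨fun l => bval N fun i => t (l, i), fun l => bval_lt fun i => g1 _, ?_⟩
    refine (iff_of_eq ?_).mp g2
    congr 1
    funext x
    cases x <;> simp
  · rintro ⟨t, g1, g2⟩
    have hN : ∀ l (i : Fin D), bdig N (t l) i < N := by
      intro l i
      rcases Nat.eq_zero_or_pos N with h0 | h0
      · exfalso
        subst h0
        have := g1 l
        rw [zero_pow (by have := i.2; omega)] at this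
        omega
      · exact bdig_lt h0 _ _
    refine ⟨fun x => bdig N (t x.1) x.2, fun x => hN _ _, ?_⟩
    refine (iff_of_eq ?_).mp g2
    congr 1
    funext x
    cases x with
    | inl x => simp
    | inr x => simpa using (bval_bdig (g1 x)).symm

theorem all' [Fintype lam] {R : ℕ → Arr (Option W1) → (κ ⊕ lam → ℕ) → Prop}
    (h : DBDef q ι D C (κ ⊕ lam) R) :
    DBDef (q + Fintype.card lam * D) ι D C κ
      (fun N a e => ∀ t : lam → ℕ, (∀ l, t l < N ^ D) → R N a (Sum.elim e t)) :=
  h.not.ex.not.congr (by intro N a e _ _; push Not; rfl)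

/-- Comparison. -/
theorem le (x y : κ) : DBDef q ι D C κ (fun _ _ e => e x ≤ e y) := by
  have key : ∀ (D' : ℕ) (f g : Fin D' → κ × Fin D), DDef q (bar ι D) C (κ × Fin D)
      (fun N _ d => bval N (fun i => d (f i)) ≤ bval N (fun i => d (g i))) := by
    intro D'
    induction D' with
    | zero =>
      intro f g
      exact (DDef.const (κ := κ × Fin D) True).congr (by intro N a e _ _; simp [bval])
    | succ D' ih =>
      intro f g
      refine ((DDef.lt (f (Fin.last _)) (g (Fin.last _))).or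
        ((DDef.eq (f (Fin.last _)) (g (Fin.last _))).and
          (ih (fun i => f i.castSucc) (fun i => g i.castSucc)))).congr ?_
      intro N a e _ he
      exact (bval_le_iff (fun i => he _) (fun i => he _)).symm
  exact key D (fun i => (x, i)) (fun i => (y, i))

theorem lt (x y : κ) : DBDef q ι D C κ (fun _ _ e => e x < e y) :=
  (le y x).not.congr (by intro N a e _ _; omega)

theorem eq (x y : κ) : DBDef q ι D C κ (fun _ _ e => e x = e y) :=
  ((le x y).and (le y x)).congr (by intro N a e _ _; omega)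

/-- One new variable. -/
theorem ex1 {R : ℕ → Arr (Option W1) → (κ ⊕ Unit → ℕ) → Prop} (h : DBDef q ι D C (κ ⊕ Unit) R) :
    DBDef (q + D) ι D C κ (fun N a e => ∃ t < N ^ D, R N a (Sum.elim e fun _ => t)) := by
  refine (h.ex.up (q := q + D) (by simp)).congr ?_
  intro N a e _ _
  constructor
  · rintro ⟨t, g1, g2⟩
    exact ⟨t (), g1 (), g2⟩
  · rintro ⟨t, g1, g2⟩
    exact ⟨fun _ => t, fun _ => g1, g2⟩

theorem all1 {R : ℕ → Arr (Option W1) → (κ ⊕ Unit → ℕ) → Prop} (h : DBDef q ι D C (κ ⊕ Unit) R) :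
    DBDef (q + D) ι D C κ (fun N a e => ∀ t < N ^ D, R N a (Sum.elim e fun _ => t)) :=
  h.not.ex1.not.congr (by intro N a e _ _; push Not; rfl)

theorem isZero (x : κ) : DBDef (q + D) ι D C κ (fun _ _ e => e x = 0) := by
  have h : DBDef q ι D C (κ ⊕ Unit) (fun _ _ e => e (Sum.inl x) ≤ e (Sum.inr ())) := le _ _
  refine h.all1.congr ?_
  intro N a e _ he
  constructor
  · intro g
    have := g 0 (lt_of_le_of_lt (Nat.zero_le _) (he x))
    simpa using this
  · intro g t _
    simp [g]

theorem isSucc (x y : κ) : DBDef (q + D) ι D C κ (fun _ _ e => e y = e x + 1) := by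
  have h : DBDef q ι D C (κ ⊕ Unit) (fun _ _ e => e (Sum.inr ()) ≤ e (Sum.inl x) ∨
    e (Sum.inl y) ≤ e (Sum.inr ())) := (le _ _).or (le _ _)
  refine ((lt x y).and h.all1).congr ?_
  intro N a e _ he
  simp only [Sum.elim_inl, Sum.elim_inr]
  constructor
  · rintro ⟨g1, g2⟩
    have := g2 (e x + 1) (lt_of_le_of_lt g1 (he y))
    omega
  · intro g
    exact ⟨by omega, fun t _ => by omega⟩

/-- Access to an array. -/
theorem arr (w : W1) (f : ι w → κ) : DBDef q ι D C κ (fun N a e => BA ι D N a w (e ∘ f)) := by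
  refine (DDef.arr (some w) (fun i => (f (pl ι D w i).1, (pl ι D w i).2))).congr ?_
  intro N a d _ hd
  unfold BA lst
  have : ∀ i, bdig N (bval N fun j => d (f (pl ι D w i).1, j)) (pl ι D w i).2 =
      d (f (pl ι D w i).1, (pl ι D w i).2) := fun i => bdig_bval (fun j => hd _) _
  simp only [comp_apply, this]

/-- Vertices: numbers below `N`. -/
theorem isVert (x : κ) : DBDef (q + 1) ι (D + 1) C κ (fun N _ e => e x < N) := by
  have h0 : ∀ i : Fin D, DDef (q + 1) (bar ι (D + 1)) C (κ × Fin (D + 1))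
      (fun N _ d => d (x, i.succ) = 0) := by
    intro i
    have h : DDef q (bar ι (D + 1)) C ((κ × Fin (D + 1)) ⊕ Unit)
      (fun _ _ e => e (Sum.inl (x, i.succ)) ≤ e (Sum.inr ())) := DDef.le _ _
    refine h.all'.congr ?_
    intro N a e _ he
    constructor
    · intro g
      have := g (fun _ => 0) (fun _ => lt_of_le_of_lt (Nat.zero_le _) (he (x, i.succ)))
      simpa using this
    · intro g t _
      simp [g]
  refine (DDef.forall' h0).congr ?_
  intro N a d _ hd
  have hN : 0 < N := lt_of_le_of_lt (Nat.zero_le _) (hd (x, 0))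
  have e1 : bval N (fun i => d (x, i)) = d (x, 0) + N * ∑ i : Fin D, d (x, i.succ) * N ^ (i : ℕ) := by
    simp only [bval, Fin.sum_univ_succ, Fin.val_zero, pow_zero, mul_one, Fin.val_succ,
      Finset.mul_sum]
    congr 1
    refine Finset.sum_congr rfl fun i _ => ?_
    ring
  show (∀ i : Fin D, d (x, i.succ) = 0) ↔ bval N (fun i => d (x, i)) < N
  rw [e1]
  constructor
  · intro g
    simp only [g, zero_mul, Finset.sum_const_zero, mul_zero, add_zero]
    exact hd _
  · intro g i
    by_contra hc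
    have h1 : 1 ≤ ∑ i : Fin D, d (x, i.succ) * N ^ (i : ℕ) := by
      refine le_trans ?_ (Finset.single_le_sum (f := fun i : Fin D => d (x, i.succ) * N ^ (i : ℕ))
        (fun _ _ => Nat.zero_le _) (Finset.mem_univ i))
      have h2 := Nat.pos_of_ne_zero hc
      have h3 : 0 < N ^ (i : ℕ) := pow_pos hN _
      exact Nat.mul_pos h2 h3
    nlinarith

/-- Adjacency. -/
theorem adj (x y : κ) : DBDef (q + 1) ι (D + 1) C κ (fun N a e => BAdj N a (e x) (e y)) := by
  have h : DDef (q + 1) (bar ι (D + 1)) C (κ × Fin (D + 1)) (fun _ a d => a none [d (x, 0), d (y, 0)] = true) :=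
    (DDef.arr (ar := bar ι (D + 1)) none ![(x, 0), (y, 0)]).congr (by
      intro N a e _ _
      simp [bar, List.ofFn_succ])
  refine (((isVert x).and (isVert y)).congr (S := fun N _ e => e x < N ∧ e y < N) ?_ |>.and
    (R := fun N _ e => e x < N ∧ e y < N)
    (S := fun N a e => a none [bdig N (e x) 0, bdig N (e y) 0] = true) ?_).congr ?_
  · intro N a e _ _; rfl
  · refine DDef.congr h ?_
    intro N a d _ hd
    have h1 : ∀ z : κ, bdig N (bval N fun i => d (z, i)) 0 = d (z, 0) := fun z =>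
      bdig_bval (D := D + 1) (fun i => hd (z, i)) 0
    simp only [h1]
  · intro N a e _ _
    unfold BAdj
    constructor
    · rintro ⟨⟨g1, g2⟩, g3⟩
      simp only [bdig, pow_zero, Nat.div_one, Nat.mod_eq_of_lt g1, Nat.mod_eq_of_lt g2] at g3
      exact ⟨g1, g2, g3⟩
    · rintro ⟨g1, g2, g3⟩
      refine ⟨⟨g1, g2⟩, ?_⟩
      simpa only [bdig, pow_zero, Nat.div_one, Nat.mod_eq_of_lt g1, Nat.mod_eq_of_lt g2] using g3

end DBDef

end Pool.Agent.Lib.FOLFPd
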