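import Pool.Agent.Lib.FOLFP.BigLfp
import Pool.Agent.Lib.FOLFPd_h74.Lfp
import Pool.Agent.Lib.FOLFPd_h74.Big

/-! # Fixed points over the larger range and output, with bounded depth -/

namespace Pool.Agent.Lib.FOLFPd

open Pool.Agent.Lib.PolyTM Pool.Agent.Lib.FOLFP Function Turing

set_option linter.unusedSectionVars false

variable {W1 : Type} [DecidableEq W1] {ι : W1 → Type} [∀ w, Fintype (ι w)]
  [∀ w, DecidableEq (ι w)] {D q : ℕ}

theorem blfp_step {C : ℕ → Arr (Option W1) → Prop} (w : W1)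
    {R : ℕ → Arr (Option W1) → (ι w → ℕ) → Prop} (h : DBDef q ι D C (ι w) R)
    (hC : ∀ N M M', (∀ w' ≠ some w, M' w' = M w') → C N M → C N M') :
    PDefd (2 * (Fintype.card (ι w) * D) + q + 1) (Sum.elim (bar ι D) (bar ι D))
      (BSpec ι D C w R) := by
  have h1 : DDef q (bar ι D) C (Fin (bar ι D (some w))) (fun N a d => R N a (tup ι D N w d)) :=
    DDef.rename (pl ι D w).symm (pl ι D w).symm.injective h
  refine PDefd.up ((lfp_step (some w) h1 hC).mono ?_) (by simp [bar])
  intro N σ τ hs hCσ hσ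
  obtain ⟨s1, s2, s3, s4⟩ := hs hCσ hσ
  refine ⟨s1, s2, ?_, ?_⟩
  · intro E hE hR
    refine s3 (dgt ι D N w E) (dgt_lt hE) ?_
    change R N (mn τ) (tup ι D N w (dgt ι D N w E))
    rw [tup_dgt hE]
    exact hR
  · intro P hP E hE hB
    have := s4 (fun d => P (tup ι D N w d)) ?_ (dgt ι D N w E) (dgt_lt hE) hB
    · rwa [tup_dgt hE] at this
    · intro M hM hMP d hd hR
      refine hP M hM ?_ _ (tup_lt hd) hR
      intro E' hE' hB'
      have := hMP (dgt ι D N w E') (dgt_lt hE') hB'
      rwa [tup_dgt hE'] at this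

/-- Output of the truth value of a definable statement. -/
theorem emit_step {C : ℕ → Arr (Option W1) → Prop}
    {R : ℕ → Arr (Option W1) → (Empty → ℕ) → Prop} (h : DBDef q ι D C Empty R) :
    PDefd (q + 1) (Sum.elim (bar ι D) (bar ι D)) (fun N σ τ => C N (mn σ) →
      ∃ b : Bool, τ.o = σ.o ++ [b] ∧ (b = true ↔ R N (mn σ) Empty.elim)) := by
  obtain ⟨B, i1, i2, φ, h0, h1, h2⟩ := h
  refine ⟨(Empty × Fin D) ⊕ B, inferInstance, inferInstance, .emit (ren id Sum.inl φ), ?_, ?_, ?_⟩
  · simpa only [Stmt.dep, dep_ren] using h0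
  · have h3 := h1.ren (f := id) injective_id (g := Sum.inl)
      (ar' := Sum.elim (bar ι D) (bar ι D)) (fun _ => rfl)
    have h4 : (id '' Set.range Sum.inl : Set ((Empty × Fin D) ⊕ B)) = {x | x ∈ ([] : List _)} := by
      ext x
      constructor
      · rintro ⟨_, ⟨⟨y, _⟩, _⟩, _⟩
        exact y.elim
      · intro hx
        exact absurd hx (by simp)
    rw [h4] at h3
    exact wf_of_WFs h3
  · intro N e σ hC
    refine ⟨_, rfl, ?_⟩
    rw [eval_ren injective_id]
    change φ.eval N (mn σ) (e ∘ id) = true ↔ _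
    rw [h2 N _ _ hC (fun x => x.1.elim)]
    refine iff_of_eq (congrArg (R N (mn σ)) ?_)
    funext x
    exact x.elim

/-- The statement of `Stmt.polytime` with a bound on the degree of the time bound. -/
def PolytimeDeg : Prop :=
  ∀ {V W : Type} [DecidableEq V] [DecidableEq W] {Γ : Type} [Fintype Γ] [Fintype V] [Fintype W]
    {ar : W → ℕ} {D : ℕ} (_ : ∀ w, ar w ≤ D) (S : Stmt V W) (_ : S.wf ar [] = true)
    (cnt : Γ → Bool) (ini : W → Γ → Option Bool),
    ∃ (M : TM2ComputableAux Γ Bool) (p : Polynomial ℕ), p.natDegree ≤ 2 * (S.dep + D + 2) + 1 ∧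
      (∀ k, Finite (M.tm.Γ k)) ∧
      ∀ word : List Γ, Nonempty (TM2OutputsInTime M.tm (word.map M.inputAlphabet.invFun)
        (some ((S.out cnt ini word).map M.outputAlphabet.invFun)) (p.eval word.length))

/-- **Programs of bounded depth run in polynomial time of bounded degree**, whatever the number of
arrays and statements is. -/
theorem machine_of_PDefd (hdeg : PolytimeDeg) [Fintype W1] {A : ℕ} (hA : 2 ≤ A)
    (hι : ∀ w, Fintype.card (ι w) * D ≤ A)
    {Q : ℕ → AS (Option W1 ⊕ Option W1) → AS (Option W1 ⊕ Option W1) → Prop}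
    (h : PDefd q (Sum.elim (bar ι D) (bar ι D)) Q) :
    ∃ (f : Graph → List Bool) (M : TM2ComputableInPolyTime Graph.encode id f),
      M.time.natDegree ≤ 2 * (q + A + 2) + 1 ∧
      (∀ k, Finite (M.tm.Γ k)) ∧ ∀ I : Graph, ∃ τ, Q I.n (init W1 I) τ ∧ f I = τ.o := by
  obtain ⟨V, i1, i2, s, h0, h1, h2⟩ := h
  have har : ∀ w : Option W1 ⊕ Option W1, (Sum.elim (bar ι D) (bar ι D)) w ≤ A := by
    have key : ∀ w : Option W1, bar ι D w ≤ A := by
      intro w
      cases w with
      | none => exact hA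
      | some w => simpa [bar] using hι w
    intro w
    cases w with
    | inl w => exact key w
    | inr w => exact key w
  obtain ⟨M, p, hp, hfin, hM⟩ := hdeg har s h1 cnt (ini (W1 := W1))
  refine ⟨fun I => s.out cnt ini I.encode, ⟨M, p, fun I => Classical.choice (hM I.encode)⟩,
    hp.trans (by omega), hfin, fun I => ⟨_, h2 I.n (fun _ => 0) (init W1 I), ?_⟩⟩
  simp only [Stmt.out, encode_count]
  rfl

end Pool.Agent.Lib.FOLFPd
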