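import Pool.Agent.Lib.FOLFPd_h74.Typed

/-!
# Stratified systems of fixed points

A system of arrays, each of them the least fixed point of an operator that is first-order definable
with depth `q` from the adjacency relation, the earlier arrays and the array itself, is computed by
a Turing machine in polynomial time. The degree of the time bound depends only on `q` and on the
largest arity, and not on the number of arrays.
-/

namespace Pool.Agent.Lib.FOLFPd

open Pool.Agent.Lib.PolyTM Pool.Agent.Lib.FOLFP Function Turing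

variable {W1 : Type} [DecidableEq W1] {ι : W1 → Type} [∀ w, Fintype (ι w)]
  [∀ w, DecidableEq (ι w)]

omit [DecidableEq W1] in
theorem adj_congr {N : ℕ} {M M' : Arr (Option W1)} (h : M none = M' none) :
    TDefD.Adj N M = TDefD.Adj N M' := by
  funext x y
  unfold TDefD.Adj BAdj
  rw [h]

omit [DecidableEq W1] [∀ w, DecidableEq (ι w)] in
theorem tab_congr {N : ℕ} {M M' : Arr (Option W1)} {w : W1} (h : M (some w) = M' (some w)) :
    TDefD.Tab ι N M w = TDefD.Tab ι N M' w := by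
  funext E
  unfold TDefD.Tab BA
  rw [h]

/-- The array `w` is the least fixed point of `R` (which may refer to all arrays). -/
def IsLfp (ι : W1 → Type) [∀ w, Fintype (ι w)] (N : ℕ) (a : Arr (Option W1)) (w : W1)
    (R : Arr (Option W1) → (ι w → Fin N) → Prop) : Prop :=
  (∀ E : ι w → Fin N, R a E → TDefD.Tab ι N a w E) ∧
    ∀ P : (ι w → Fin N) → Prop,
      (∀ M : Arr (Option W1), (∀ w' ≠ some w, M w' = a w') →
        (∀ E : ι w → Fin N, TDefD.Tab ι N M w E → P E) → ∀ E : ι w → Fin N, R M E → P E) →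
      ∀ E : ι w → Fin N, TDefD.Tab ι N a w E → P E

omit [DecidableEq W1] [∀ w, DecidableEq (ι w)] in
/-- If `R` does not refer to the array `w`, then the array is the relation `R`. -/
theorem IsLfp.tab_iff {N : ℕ} {a : Arr (Option W1)} {w : W1}
    {R : Arr (Option W1) → (ι w → Fin N) → Prop} (h : IsLfp ι N a w R)
    (hR : ∀ M : Arr (Option W1), (∀ w' ≠ some w, M w' = a w') → ∀ E, R M E → R a E)
    (E : ι w → Fin N) : TDefD.Tab ι N a w E ↔ R a E :=
  ⟨h.2 (R a) (fun M hM _ E' hE' => hR M hM E' hE') E, h.1 E⟩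

omit [DecidableEq W1] [∀ w, DecidableEq (ι w)] in
/-- Induction in the usual form, for an operator `S` on relations that is monotone in the sense
that `R` is given by `S` applied to the contents of the array. -/
theorem IsLfp.ind {N : ℕ} {a : Arr (Option W1)} {w : W1}
    {R : Arr (Option W1) → (ι w → Fin N) → Prop} (h : IsLfp ι N a w R)
    (S : ((ι w → Fin N) → Prop) → (ι w → Fin N) → Prop)
    (hS : ∀ M : Arr (Option W1), (∀ w' ≠ some w, M w' = a w') → ∀ E, R M E →
      S (TDefD.Tab ι N M w) E)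
    (hmono : ∀ P Q : (ι w → Fin N) → Prop, (∀ E, P E → Q E) → ∀ E, S P E → S Q E)
    (P : (ι w → Fin N) → Prop) (hP : ∀ E, S P E → P E) (E : ι w → Fin N)
    (hE : TDefD.Tab ι N a w E) : P E :=
  h.2 P (fun M hM hMP E' hE' => hP E' (hmono _ _ hMP E' (hS M hM E' hE'))) E hE

omit [∀ w, DecidableEq (ι w)] in
theorem IsLfp.transfer {N : ℕ} {a a' : Arr (Option W1)} {w : W1}
    {R : Arr (Option W1) → (ι w → Fin N) → Prop} (h : IsLfp ι N a w R) (S : Option W1 → Prop)
    (hw : S (some w))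
    (hR : ∀ M M' : Arr (Option W1), (∀ w', S w' → M w' = M' w') → ∀ E, R M E → R M' E)
    (haa : ∀ w', S w' → a w' = a' w') : IsLfp ι N a' w R := by
  have htab : ∀ (M M' : Arr (Option W1)), M (some w) = M' (some w) → ∀ E : ι w → Fin N,
      TDefD.Tab ι N M w E → TDefD.Tab ι N M' w E := by
    intro M M' hM E hE
    unfold TDefD.Tab BA at hE ⊢
    rwa [hM] at hE
  refine ⟨fun E hE => ?_, fun P hP E hE => ?_⟩
  · exact htab _ _ (haa _ hw) E (h.1 E (hR a' a (fun w' hw' => (haa w' hw').symm) E hE))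
  · refine h.2 P (fun M hM hMP E' hE' => ?_) E (htab _ _ (haa _ hw).symm E hE)
    refine hP (update a' (some w) (M (some w))) ?_ ?_ E' (hR M _ ?_ E' hE')
    · intro w' hw'
      rw [update_of_ne hw']
    · intro E'' hE''
      exact hMP E'' (htab _ _ (by rw [update_self]) E'' hE'')
    · intro w' hw'
      by_cases he : w' = some w
      · subst he
        rw [update_self]
      · rw [update_of_ne he, hM w' he, haa w' hw']

/-- The specification of the program of a system. -/
theorem tsystem {A q K : ℕ} (w : Fin K → W1) (hw : Injective w)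
    (R : ∀ i : Fin K, ∀ N, Arr (Option W1) → (ι (w i) → Fin N) → Prop)
    (hR : ∀ i, TDefD q ι (fun _ _ => True) (ι (w i)) (R i))
    (hdep : ∀ (i : Fin K) (N : ℕ) (M M' : Arr (Option W1)),
      (∀ w', (w' = none ∨ ∃ j ≤ i, w' = some (w j)) → M w' = M' w') →
      ∀ E, R i N M E → R i N M' E)
    (hA : ∀ i, Fintype.card (ι (w i)) ≤ A) :
    PDefd (2 * A + q + 1) (Sum.elim (bar ι (0 + 1)) (bar ι (0 + 1))) (fun N σ τ =>
      (∀ i l, mn σ (some (w i)) l = false) →
        τ.o = σ.o ∧ (∀ w', (∀ i, w' ≠ some (w i)) → mn τ w' = mn σ w') ∧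
        ∀ i, IsLfp ι N (mn τ) (w i) (R i N)) := by
  have key := PDefd.iter (q := 2 * A + q + 1) (ar := Sum.elim (bar ι (0 + 1)) (bar ι (0 + 1)))
    (fun i N σ₀ σ => (∀ j l, mn σ₀ (some (w j)) l = false) →
      σ.o = σ₀.o ∧ (∀ w', (∀ j : Fin K, (j : ℕ) < i → w' ≠ some (w j)) → mn σ w' = mn σ₀ w') ∧
      ∀ j : Fin K, (j : ℕ) < i → IsLfp ι N (mn σ) (w j) (R j N)) K ?_
  · refine key.mono fun N σ τ h h0 => ?_
    obtain ⟨h1, h2, h3⟩ := h σ (fun _ => ⟨rfl, fun _ _ => rfl,
      fun j hj => absurd hj (Nat.not_lt_zero _)⟩) h0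
    exact ⟨h1, fun w' hw' => h2 w' fun j _ => hw' j, fun i => h3 i i.2⟩
  · intro i hi
    have s := tlfp_stepD (C := fun _ _ => True) (w ⟨i, hi⟩) (hR ⟨i, hi⟩)
      (fun _ _ _ _ _ => trivial)
    refine (s.up ?_).mono ?_
    · have := hA ⟨i, hi⟩
      omega
    intro _ σ τ hs σ₀ hI h0
    obtain ⟨i1, i2, i3⟩ := hI h0
    have hz : ∀ l, mn σ (some (w ⟨i, hi⟩)) l = false := by
      intro l
      rw [i2 _ (fun j hj hc => ?_)]
      · exact h0 _ _
      · have := hw (Option.some.inj hc)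
        rw [← this] at hj
        exact absurd hj (lt_irrefl _)
    obtain ⟨s1, s2, s3, s4⟩ := hs trivial hz
    refine ⟨s1.trans i1, ?_, ?_⟩
    · intro w' hw'
      rw [s2 w' (hw' ⟨i, hi⟩ (Nat.lt_succ_self i)), i2 w' fun j hj => hw' j (by omega)]
    · intro j hj
      rcases Nat.lt_succ_iff_lt_or_eq.1 hj with hj | hj
      · refine (i3 j hj).transfer (fun w' => w' = none ∨ ∃ j' ≤ j, w' = some (w j'))
          (Or.inr ⟨j, le_rfl, rfl⟩) (hdep j _) ?_
        rintro w' (rfl | ⟨j', hj', rfl⟩)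
        · exact (s2 none (by simp)).symm
        · refine (s2 _ fun hc => ?_).symm
          have h1 := hw (Option.some.inj hc)
          have h2 : (j' : ℕ) = i := by rw [h1]
          have h3 : (j' : ℕ) ≤ j := hj'
          omega
      · have : j = ⟨i, hi⟩ := Fin.ext hj
        subst this
        exact ⟨s3, s4⟩

/-- **Turing machines for stratified systems.** -/
theorem machine_of_system (hdeg : PolytimeDeg) [Fintype W1] {A q K : ℕ} (w : Fin K → W1)
    (hw : Injective w)
    (R : ∀ i : Fin K, ∀ N, Arr (Option W1) → (ι (w i) → Fin N) → Prop)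
    (hR : ∀ i, TDefD q ι (fun _ _ => True) (ι (w i)) (R i))
    (hdep : ∀ (i : Fin K) (N : ℕ) (M M' : Arr (Option W1)),
      (∀ w', (w' = none ∨ ∃ j ≤ i, w' = some (w j)) → M w' = M' w') →
      ∀ E, R i N M E → R i N M' E)
    (hA : ∀ w, Fintype.card (ι w) ≤ A) (hA2 : 2 ≤ A)
    (F : ∀ N : ℕ, Arr (Option W1) → Prop)
    (hF : TDefD q ι (fun _ _ => True) Empty (fun N a _ => F N a)) :
    ∃ (f : Graph → List Bool) (M : TM2ComputableInPolyTime Graph.encode id f),
      M.time.natDegree ≤ 2 * ((2 * A + q + 1) + A + 2) + 1 ∧ (∀ k, Finite (M.tm.Γ k)) ∧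
      ∀ I : Graph, ∃ (a : Arr (Option W1)) (b : Bool),
        (∀ x y, TDefD.Adj I.n a x y ↔ I.G.Adj x y) ∧
        (∀ i, IsLfp ι I.n a (w i) (R i I.n)) ∧ f I = [b] ∧ (b = true ↔ F I.n a) := by
  have s1 := tsystem w hw R hR hdep fun i => hA (w i)
  have s2 := (temit_stepD (ι := ι) hF).up (show q + 1 ≤ 2 * A + q + 1 by omega)
  obtain ⟨f, M, hM1, hM2, hf⟩ := machine_of_PDefd hdeg (ι := ι) (D := 0 + 1) hA2
    (fun w => by simpa using hA w) (s1.seq s2)
  refine ⟨f, M, hM1, hM2, fun I => ?_⟩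
  obtain ⟨τ, ⟨ρ, h1, h2⟩, hfI⟩ := hf I
  obtain ⟨o1, u1, l1⟩ := h1 fun i l => init_some I (w i) l
  obtain ⟨b, hb1, hb2⟩ := h2 trivial
  refine ⟨mn ρ, b, ?_, l1, ?_, hb2⟩
  · intro x y
    have : BAdj I.n (mn ρ) x y ↔ adjN I x y := by
      rw [← init_adj (W1 := W1) I x y]
      unfold BAdj
      rw [u1 none (by simp)]
    unfold TDefD.Adj
    rw [this]
    exact ⟨fun ⟨_, _, h⟩ => h, fun h => ⟨x.2, y.2, h⟩⟩
  · rw [hfI, hb1, o1]
    rfl

end Pool.Agent.Lib.FOLFPd
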