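import Pool.Agent.Lib.FOLFPd_h74.BigLfp

/-!
# Typed first-order definability with bounded depth

A wrapper around `DBDef` for the index range `N` itself: relations of tuples of elements of
`Fin N`.
-/

namespace Pool.Agent.Lib.FOLFPd

open Pool.Agent.Lib.PolyTM Pool.Agent.Lib.FOLFP Function

variable {W1 : Type} [DecidableEq W1] {ι : W1 → Type} [∀ w, Fintype (ι w)]
  [∀ w, DecidableEq (ι w)]

/-- Definability of a relation of tuples of elements of `Fin N`. -/
def TDefD (q : ℕ) (ι : W1 → Type) [∀ w, Fintype (ι w)] (C : ℕ → Arr (Option W1) → Prop)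
    (κ : Type) [DecidableEq κ] (R : ∀ N, Arr (Option W1) → (κ → Fin N) → Prop) : Prop :=
  DBDef q ι (0 + 1) C κ (fun N a e => ∃ h : ∀ x, e x < N, R N a fun x => ⟨e x, h x⟩)

namespace TDefD

variable {p q : ℕ} {C : ℕ → Arr (Option W1) → Prop} {κ κ' lam : Type} [DecidableEq κ] [DecidableEq κ']
  [DecidableEq lam] {R S : ∀ N, Arr (Option W1) → (κ → Fin N) → Prop}

/-- A larger bound. -/
theorem up (h : TDefD p ι C κ R) (hpq : p ≤ q) : TDefD q ι C κ R := DBDef.up h hpq

theorem mono {C' : ℕ → Arr (Option W1) → Prop} (h : TDefD q ι C κ R)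
    (hC : ∀ N a, C' N a → C N a) : TDefD q ι C' κ R := DBDef.mono h hC

theorem congr (h : TDefD q ι C κ R) (hRS : ∀ N a (e : κ → Fin N), C N a → (R N a e ↔ S N a e)) :
    TDefD q ι C κ S :=
  DBDef.congr h fun N a _ hC _ =>
    ⟨fun ⟨h1, h2⟩ => ⟨h1, (hRS N a _ hC).1 h2⟩, fun ⟨h1, h2⟩ => ⟨h1, (hRS N a _ hC).2 h2⟩⟩

theorem of_bdef {R' : ℕ → Arr (Option W1) → (κ → ℕ) → Prop} (h : DBDef q ι (0 + 1) C κ R')
    (hR : ∀ N a (e : κ → Fin N), C N a → (R N a e ↔ R' N a fun x => e x)) : TDefD q ι C κ R := by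
  refine DBDef.congr h fun N a e hC he => ?_
  have he' : ∀ x, e x < N := fun x => by simpa using he x
  constructor
  · intro g
    exact ⟨he', (hR N a _ hC).2 g⟩
  · rintro ⟨h1, h2⟩
    exact (hR N a _ hC).1 h2

theorem not (h : TDefD q ι C κ R) : TDefD q ι C κ (fun N a e => ¬ R N a e) := by
  refine DBDef.congr (DBDef.not h) fun N a e _ he => ?_
  have he' : ∀ x, e x < N := fun x => by simpa using he x
  constructor
  · intro g
    exact ⟨he', fun g' => g ⟨he', g'⟩⟩
  · rintro ⟨_, h2⟩ ⟨_, h4⟩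
    exact h2 h4

theorem and (h : TDefD q ι C κ R) (h' : TDefD q ι C κ S) :
    TDefD q ι C κ (fun N a e => R N a e ∧ S N a e) := by
  refine DBDef.congr (DBDef.and h h') fun N a e _ _ => ?_
  constructor
  · rintro ⟨⟨h1, h2⟩, ⟨h3, h4⟩⟩
    exact ⟨h1, h2, h4⟩
  · rintro ⟨h1, h2, h4⟩
    exact ⟨⟨h1, h2⟩, ⟨h1, h4⟩⟩

theorem or (h : TDefD q ι C κ R) (h' : TDefD q ι C κ S) :
    TDefD q ι C κ (fun N a e => R N a e ∨ S N a e) :=
  (h.not.and h'.not).not.congr (by intro N a e _; tauto)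

theorem imp (h : TDefD q ι C κ R) (h' : TDefD q ι C κ S) :
    TDefD q ι C κ (fun N a e => R N a e → S N a e) :=
  (h.not.or h').congr (by intro N a e _; tauto)

theorem iff (h : TDefD q ι C κ R) (h' : TDefD q ι C κ S) :
    TDefD q ι C κ (fun N a e => (R N a e ↔ S N a e)) :=
  ((h.imp h').and (h'.imp h)).congr (by intro N a e _; tauto)

theorem const (p : Prop) : TDefD q ι C κ (fun _ _ _ => p) :=
  of_bdef (DBDef.const p) fun _ _ _ _ => Iff.rfl

theorem forall' {J : Type*} [Finite J] {R : J → ∀ N, Arr (Option W1) → (κ → Fin N) → Prop}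
    (h : ∀ j, TDefD q ι C κ (R j)) : TDefD q ι C κ (fun N a e => ∀ j, R j N a e) := by
  refine DBDef.congr (DBDef.forall' h) fun N a e _ he => ?_
  have he' : ∀ x, e x < N := fun x => by simpa using he x
  constructor
  · intro g
    exact ⟨he', fun j => (g j).2⟩
  · rintro ⟨h1, h2⟩ j
    exact ⟨h1, h2 j⟩

theorem exists' {J : Type*} [Finite J] {R : J → ∀ N, Arr (Option W1) → (κ → Fin N) → Prop}
    (h : ∀ j, TDefD q ι C κ (R j)) : TDefD q ι C κ (fun N a e => ∃ j, R j N a e) :=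
  (forall' fun j => (h j).not).not.congr (by intro N a e _; push Not; rfl)

theorem subst [Fintype κ] (f : κ → κ') (h : TDefD q ι C κ R) :
    TDefD (q + Fintype.card κ) ι C κ' (fun N a e => R N a (fun x => e (f x))) := by
  refine DBDef.congr ((DBDef.subst (κ' := κ') f h).up (by simp)) fun N a e _ he => ?_
  have he' : ∀ x, e x < N := fun x => by simpa using he x
  constructor
  · rintro ⟨h1, h2⟩
    exact ⟨he', h2⟩
  · rintro ⟨h1, h2⟩
    exact ⟨fun x => h1 _, h2⟩

/-- Existential quantification over tuples. -/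
theorem ex [Fintype lam] {R : ∀ N, Arr (Option W1) → (κ ⊕ lam → Fin N) → Prop}
    (h : TDefD q ι C (κ ⊕ lam) R) :
    TDefD (q + Fintype.card lam) ι C κ (fun N a e => ∃ t : lam → Fin N, R N a (Sum.elim e t)) := by
  refine DBDef.congr ((DBDef.ex h).up (by simp)) fun N a e _ he => ?_
  have he' : ∀ x, e x < N := fun x => by simpa using he x
  constructor
  · rintro ⟨t, _, h1, h2⟩
    refine ⟨he', fun l => ⟨t l, h1 (Sum.inr l)⟩, ?_⟩
    refine (iff_of_eq (congrArg (R N a) ?_)).mp h2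
    funext x
    cases x <;> rfl
  · rintro ⟨h1, t, h2⟩
    refine ⟨fun l => t l, fun l => by simp, ?_, ?_⟩
    · intro x
      cases x with
      | inl x => exact h1 x
      | inr x => exact (t x).2
    · refine (iff_of_eq (congrArg (R N a) ?_)).mp h2
      funext x
      cases x <;> rfl

theorem all [Fintype lam] {R : ∀ N, Arr (Option W1) → (κ ⊕ lam → Fin N) → Prop}
    (h : TDefD q ι C (κ ⊕ lam) R) :
    TDefD (q + Fintype.card lam) ι C κ (fun N a e => ∀ t : lam → Fin N, R N a (Sum.elim e t)) :=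
  h.not.ex.not.congr (by intro N a e _; push Not; rfl)

/-- Existential quantification over one element. -/
theorem ex1 {R : ∀ N, Arr (Option W1) → (κ ⊕ Unit → Fin N) → Prop}
    (h : TDefD q ι C (κ ⊕ Unit) R) :
    TDefD (q + 1) ι C κ (fun N a e => ∃ t : Fin N, R N a (Sum.elim e fun _ => t)) :=
  (h.ex.up (q := q + 1) (by simp)).congr (by
    intro N a e _
    constructor
    · rintro ⟨t, ht⟩
      exact ⟨t (), ht⟩
    · rintro ⟨t, ht⟩
      exact ⟨fun _ => t, ht⟩)

theorem all1 {R : ∀ N, Arr (Option W1) → (κ ⊕ Unit → Fin N) → Prop}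
    (h : TDefD q ι C (κ ⊕ Unit) R) :
    TDefD (q + 1) ι C κ (fun N a e => ∀ t : Fin N, R N a (Sum.elim e fun _ => t)) :=
  h.not.ex1.not.congr (by intro N a e _; push Not; rfl)

theorem eq (x y : κ) : TDefD q ι C κ (fun _ _ e => e x = e y) :=
  of_bdef (DBDef.eq x y) fun _ _ _ _ => by rw [Fin.ext_iff]

/-- The adjacency relation given by the input. -/
def Adj (N : ℕ) (a : Arr (Option W1)) (x y : Fin N) : Prop := BAdj N a x y

theorem adj (x y : κ) : TDefD (q + 1) ι C κ (fun N a e => Adj N a (e x) (e y)) :=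
  of_bdef (DBDef.adj x y) fun _ _ _ _ => Iff.rfl

theorem le (x y : κ) : TDefD q ι C κ (fun _ _ e => e x ≤ e y) :=
  of_bdef (DBDef.le x y) fun _ _ _ _ => by rw [Fin.le_def]

theorem lt (x y : κ) : TDefD q ι C κ (fun _ _ e => e x < e y) :=
  of_bdef (DBDef.lt x y) fun _ _ _ _ => by rw [Fin.lt_def]

theorem isZero (x : κ) : TDefD (q + 1) ι C κ (fun _ _ e => (e x : ℕ) = 0) :=
  of_bdef (DBDef.isZero x) fun _ _ _ _ => Iff.rfl

theorem isSucc (x y : κ) : TDefD (q + 1) ι C κ (fun _ _ e => (e y : ℕ) = e x + 1) :=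
  of_bdef (DBDef.isSucc x y) fun _ _ _ _ => Iff.rfl

/-- The contents of a table. -/
def Tab (ι : W1 → Type) [∀ w, Fintype (ι w)] (N : ℕ) (a : Arr (Option W1)) (w : W1)
    (E : ι w → Fin N) : Prop := BA ι (0 + 1) N a w (fun i => E i)

theorem tab (w : W1) (f : ι w → κ) : TDefD q ι C κ (fun N a e => Tab ι N a w fun i => e (f i)) :=
  of_bdef (DBDef.arr w f) fun _ _ _ _ => Iff.rfl

end TDefD

/-- Typed specification of the fixed point computation. -/
theorem tlfp_stepD {q : ℕ} {C : ℕ → Arr (Option W1) → Prop} (w : W1)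
    {R : ∀ N, Arr (Option W1) → (ι w → Fin N) → Prop} (h : TDefD q ι C (ι w) R)
    (hC : ∀ N M M', (∀ w' ≠ some w, M' w' = M w') → C N M → C N M') :
    PDefd (2 * Fintype.card (ι w) + q + 1) (Sum.elim (bar ι (0 + 1)) (bar ι (0 + 1)))
      (fun N σ τ => C N (mn σ) → (∀ l, mn σ (some w) l = false) →
        τ.o = σ.o ∧ (∀ w' ≠ some w, mn τ w' = mn σ w') ∧
        (∀ E : ι w → Fin N, R N (mn τ) E → TDefD.Tab ι N (mn τ) w E) ∧
        ∀ P : (ι w → Fin N) → Prop,
          (∀ M : Arr (Option W1), (∀ w' ≠ some w, M w' = mn τ w') →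
            (∀ E : ι w → Fin N, TDefD.Tab ι N M w E → P E) →
            ∀ E : ι w → Fin N, R N M E → P E) →
          ∀ E : ι w → Fin N, TDefD.Tab ι N (mn τ) w E → P E) := by
  refine ((blfp_step w h hC).mono ?_).up (by simp)
  intro N σ τ hs hCσ hσ
  obtain ⟨s1, s2, s3, s4⟩ := hs hCσ hσ
  refine ⟨s1, s2, ?_, ?_⟩
  · intro E hR
    exact s3 (fun i => E i) (fun i => by simp) ⟨fun i => (E i).2, hR⟩
  · intro P hP E hE
    have := s4 (fun E' => ∀ h : ∀ i, E' i < N, P fun i => ⟨E' i, h i⟩) ?_ (fun i => E i)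
      (fun i => by simp) hE
    · exact this fun i => (E i).2
    · intro M hM hMP E' _ ⟨_, hR⟩ h'
      refine hP M hM ?_ _ hR
      intro E'' hE''
      exact hMP (fun i => E'' i) (fun i => by simp) hE'' fun i => (E'' i).2

/-- Output of the truth value of a typed definable statement. -/
theorem temit_stepD {q : ℕ} {C : ℕ → Arr (Option W1) → Prop}
    {R : ∀ N, Arr (Option W1) → (Empty → Fin N) → Prop} (h : TDefD q ι C Empty R) :
    PDefd (q + 1) (Sum.elim (bar ι (0 + 1)) (bar ι (0 + 1))) (fun N σ τ => C N (mn σ) →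
      ∃ b : Bool, τ.o = σ.o ++ [b] ∧ (b = true ↔ R N (mn σ) fun x => x.elim)) := by
  refine (emit_step h).mono ?_
  intro N σ τ hs hC
  obtain ⟨b, h1, h2⟩ := hs hC
  refine ⟨b, h1, h2.trans ?_⟩
  constructor
  · rintro ⟨_, h⟩
    refine (iff_of_eq (congrArg (R N (mn σ)) ?_)).mp h
    funext x
    exact x.elim
  · intro h
    refine ⟨fun x => x.elim, ?_⟩
    refine (iff_of_eq (congrArg (R N (mn σ)) ?_)).mp h
    funext x
    exact x.elim

end Pool.Agent.Lib.FOLFPd
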